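import Pool.Agent.H71.ND.Sparse

/-!
# Automorphisms of the graph act on the limits by a permutation
-/

set_option autoImplicit false

open Set

namespace Pool.Agent.H71.ND

/-- automorphisms of the graph -/
def GAut (g : Equiv.Perm V) : Prop := ∀ a b, Adj (g a) (g b) ↔ Adj a b

lemma GAut.symm {g : Equiv.Perm V} (h : GAut g) : GAut g.symm := by
  intro a b
  rw [← h (g.symm a) (g.symm b), Equiv.apply_symm_apply, Equiv.apply_symm_apply]

lemma gAut_of_isAut {g : Equiv.Perm V} (h : IsAut g) : GAut g := by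
  intro a b
  have h1 := ((isAut_iff g).1 h).2
  rw [Adj, Adj, h1, h1]

lemma adj_succ (w : Wd) (t : ℕ) : Adj (Sum.inr (w, t)) (Sum.inr (w, t + 1)) := by
  left
  have : col2 (Sum.inr (w, t)) (Sum.inr (w, t + 1)) = kd (2, 0, []) := if_pos ⟨rfl, rfl⟩
  rw [this]
  exact kd_ne _

/-- a sequence with a prescribed value at one level -/
noncomputable def at_ (m i j : ℕ) (h : i ≤ m) : Wd :=
  ⟨(fun n => if n = m then [i] else [min j n], [j]), by
    refine ⟨fun n => ?_, fun n k hk => ?_, m + 1 + j, fun n hn => ?_⟩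
    · change (if n = m then [i] else [min j n]).length = 1
      split_ifs <;> rfl
    · change k ∈ (if n = m then [i] else [min j n]) at hk
      split_ifs at hk with h1
      · rw [List.mem_singleton] at hk
        omega
      · rw [List.mem_singleton] at hk
        omega
    · change (if n = m then [i] else [min j n]) = [j]
      rw [if_neg (by omega), min_eq_left (by omega)]⟩

lemma touch_at (m i j : ℕ) (h : i ≤ m) : Touch (at_ m i j h) (2 ^ Nat.pair m 0) m i := by
  refine ⟨0, rfl, ?_⟩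
  change (if m = m then [i] else [min j m])[0]? = some i
  rw [if_pos rfl]
  rfl

lemma at_inj {m i j j' : ℕ} {h : i ≤ m} (e : at_ m i j h = at_ m i j' h) : j = j' := by
  have h1 : (at_ m i j h).l = (at_ m i j' h).l := by rw [e]
  have h2 : [j] = [j'] := h1
  simpa using h2

lemma gaut_hub {g : Equiv.Perm V} (h : GAut g) (p : ℕ × ℕ) : ∃ q, g (Sum.inl p) = Sum.inl q := by
  classical
  rcases hg : g (Sum.inl p) with q | ⟨w, t⟩
  · exact ⟨q, rfl⟩
  · exfalso
    obtain ⟨m, i⟩ := p
    by_cases him : i ≤ m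
    · obtain ⟨c, hc⟩ := nbr_ray w t
      let y : Fin 4 → V := fun r => g (Sum.inr (at_ m i r.1 him, 2 ^ Nat.pair m 0))
      have hy : Function.Injective y := by
        intro r r' hr
        have h1 := Sum.inr.inj (g.injective hr)
        exact Fin.ext (at_inj (h := him) (Prod.ext_iff.1 h1).1)
      have hsub : Finset.univ.image y ⊆
          ({Sum.inr (w, t + 1), Sum.inr (w, t - 1), c} : Finset V) := by
        intro v hv
        obtain ⟨r, -, rfl⟩ := Finset.mem_image.1 hv
        have h3 : Adj (Sum.inl (m, i)) (Sum.inr (at_ m i r.1 him, 2 ^ Nat.pair m 0)) :=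
          (adj_ray_hub.2 (touch_at m i r.1 him)).symm
        have h4 := (h _ _).2 h3
        rw [hg] at h4
        simp only [Finset.mem_insert, Finset.mem_singleton]
        exact hc _ h4
      have h4 := Finset.card_le_card hsub
      rw [Finset.card_image_of_injective _ hy, Finset.card_univ, Fintype.card_fin] at h4
      have h5 : ({Sum.inr (w, t + 1), Sum.inr (w, t - 1), c} : Finset V).card ≤ 3 :=
        Finset.card_le_three
      omega
    · have h1 := adj_succ w t
      rw [← hg, ← g.apply_symm_apply (Sum.inr (w, t + 1)), h] at h1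
      obtain ⟨w', t', -, h2⟩ := nbr_hub h1
      exact him (touch_le h2)

lemma gaut_ray {g : Equiv.Perm V} (h : GAut g) (p : Wd × ℕ) : ∃ q, g (Sum.inr p) = Sum.inr q := by
  rcases hg : g (Sum.inr p) with q | q
  · exfalso
    obtain ⟨r, hr⟩ := gaut_hub h.symm q
    rw [← hg, Equiv.symm_apply_apply] at hr
    exact absurd hr (by simp)
  · exact ⟨q, rfl⟩

lemma nbr_zero {w : Wd} {b : V} (hb : Adj (Sum.inr (w, 0)) b) : b = Sum.inr (w, 1) := by
  match b with
  | Sum.inl (m, i) =>
    obtain ⟨p, h1, -⟩ := adj_ray_hub.1 hb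
    have : 0 < 2 ^ Nat.pair m p := Nat.pos_of_ne_zero (by positivity)
    omega
  | Sum.inr (w', t') =>
    obtain ⟨rfl, h1 | h1⟩ := adj_ray_ray hb
    · rw [h1]
    · omega

/-- an automorphism maps rays to rays -/
lemma gaut_time {g : Equiv.Perm V} (h : GAut g) (w : Wd) :
    ∃ w' : Wd, ∀ t, g (Sum.inr (w, t)) = Sum.inr (w', t) := by
  obtain ⟨⟨w', t'⟩, h0⟩ := gaut_ray h (w, 0)
  have ht : t' = 0 := by
    by_contra hne
    obtain ⟨t, rfl⟩ := Nat.exists_eq_succ_of_ne_zero hne
    have h1 : Adj (g (Sum.inr (w, 0))) (g (g.symm (Sum.inr (w', t)))) := by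
      rw [h0, Equiv.apply_symm_apply]
      exact (adj_succ w' t).symm
    have h2 : Adj (g (Sum.inr (w, 0))) (g (g.symm (Sum.inr (w', t + 1 + 1)))) := by
      rw [h0, Equiv.apply_symm_apply]
      exact adj_succ w' (t + 1)
    have h3 := nbr_zero ((h _ _).1 h1)
    have h4 := nbr_zero ((h _ _).1 h2)
    have h5 := g.symm.injective (h3.trans h4.symm)
    have h6 := (Prod.ext_iff.1 (Sum.inr.inj h5)).2
    simp only at h6
    omega
  subst ht
  refine ⟨w', fun t => ?_⟩
  induction t using Nat.strong_induction_on with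
  | _ t ih =>
    match t with
    | 0 => exact h0
    | t + 1 =>
      have h1 := ih t (by omega)
      obtain ⟨⟨w'', t''⟩, h2⟩ := gaut_ray h (w, t + 1)
      have h3 := (h _ _).2 (adj_succ w t)
      rw [h1, h2] at h3
      obtain ⟨rfl, h4 | h4⟩ := adj_ray_ray h3
      · rw [h2, h4]
      · exfalso
        have h5 := ih t'' (by omega)
        rw [← h2] at h5
        have h6 := (Prod.ext_iff.1 (Sum.inr.inj (g.injective h5))).2
        simp only at h6
        omega

/-- the entries of the lists -/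
lemma gaut_entry {g : Equiv.Perm V} (h : GAut g) {w w' : Wd}
    (hw : ∀ t, g (Sum.inr (w, t)) = Sum.inr (w', t)) {m p i : ℕ} (hi : (w.a m)[p]? = some i) :
    ∃ j, g (Sum.inl (m, i)) = Sum.inl (m, j) ∧ (w'.a m)[p]? = some j := by
  obtain ⟨⟨m', j⟩, hj⟩ := gaut_hub h (m, i)
  have h1 : Adj (Sum.inr (w, 2 ^ Nat.pair m p)) (Sum.inl (m, i)) := adj_ray_hub.2 ⟨p, rfl, hi⟩
  have h2 := (h _ _).2 h1
  rw [hw, hj] at h2
  obtain ⟨p', h3, h4⟩ := adj_ray_hub.1 h2
  have e3 : Nat.pair m p = Nat.pair m' p' := Nat.pow_right_injective (le_refl 2) h3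
  have e4 := congrArg Nat.unpair e3
  rw [Nat.unpair_pair, Nat.unpair_pair] at e4
  obtain ⟨e5, e6⟩ := Prod.ext_iff.1 e4
  simp only at e5 e6
  subst e5 e6
  exact ⟨j, hj, h4⟩

lemma gaut_length_le {g : Equiv.Perm V} (h : GAut g) {w w' : Wd}
    (hw : ∀ t, g (Sum.inr (w, t)) = Sum.inr (w', t)) (m : ℕ) :
    (w.a m).length ≤ (w'.a m).length := by
  by_contra hlt
  rw [not_le] at hlt
  obtain ⟨j, -, h2⟩ := gaut_entry h hw (List.getElem?_eq_getElem hlt)
  rw [List.getElem?_eq_none (le_refl _)] at h2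
  exact absurd h2 (by simp)

lemma gaut_map {g : Equiv.Perm V} (h : GAut g) {w w' : Wd}
    (hw : ∀ t, g (Sum.inr (w, t)) = Sum.inr (w', t)) {γ : ℕ → ℕ → ℕ}
    (hγ : ∀ m i j, g (Sum.inl (m, i)) = Sum.inl (m, j) → γ m i = j) (m : ℕ) :
    w'.a m = (w.a m).map (γ m) := by
  have hw' : ∀ t, g.symm (Sum.inr (w', t)) = Sum.inr (w, t) := fun t => by
    rw [← hw, Equiv.symm_apply_apply]
  have hlen : (w'.a m).length = (w.a m).length :=
    le_antisymm (gaut_length_le h.symm hw' m) (gaut_length_le h hw m)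
  refine List.ext_getElem (by rw [List.length_map, hlen]) fun p hp hp' => ?_
  rw [List.getElem_map]
  have hpA : p < (w.a m).length := by rwa [hlen] at hp
  obtain ⟨j, h1, h2⟩ := gaut_entry h hw (List.getElem?_eq_getElem hpA)
  rw [List.getElem?_eq_getElem hp] at h2
  rw [hγ m _ j h1]
  exact Option.some.inj h2

/-- the map on the hubs -/
lemma exists_gamma {g : Equiv.Perm V} : ∃ γ : ℕ → ℕ → ℕ,
    ∀ m i j, g (Sum.inl (m, i)) = Sum.inl (m, j) → γ m i = j := by
  classical
  refine ⟨fun m i => if hx : ∃ j, g (Sum.inl (m, i)) = Sum.inl (m, j) then hx.choose else 0,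
    fun m i j hj => ?_⟩
  have hx : ∃ j, g (Sum.inl (m, i)) = Sum.inl (m, j) := ⟨j, hj⟩
  simp only [dif_pos hx]
  have h1 := hj.symm.trans hx.choose_spec
  exact ((Prod.ext_iff.1 (Sum.inl.inj h1)).2).symm

/-- the limit map: `π i` is the limit of the values at `i` -/
lemma exists_lim {g : Equiv.Perm V} (h : GAut g) {γ : ℕ → ℕ → ℕ}
    (hγ : ∀ m i j, g (Sum.inl (m, i)) = Sum.inl (m, j) → γ m i = j) (i : ℕ) :
    ∃ j, ∃ n, ∀ m, n ≤ m → γ m i = j := by
  obtain ⟨w', hw⟩ := gaut_time h (cst [i])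
  have hm := gaut_map h hw hγ
  obtain ⟨n, hn⟩ := w'.2.2.2
  have hlen : w'.l.length = 1 := by
    have h1 : (w'.a n).length = w'.l.length := w'.2.1 n
    rw [← h1, hm n, List.length_map]
    rfl
  obtain ⟨j, hj⟩ := List.length_eq_one_iff.1 hlen
  refine ⟨j, max n i, fun m hnm => ?_⟩
  have h1 : w'.a m = w'.l := hn m ((le_max_left _ _).trans hnm)
  have h2 : (cst [i]).a m = [min i m] := rfl
  have h3 : min i m = i := min_eq_left ((le_max_right _ _).trans hnm)
  have h4 := hm m
  rw [h1, h2, h3, hj] at h4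
  simpa using h4.symm

lemma exists_pi_fun {g : Equiv.Perm V} (h : GAut g) :
    ∃ π : ℕ → ℕ, ∀ w : Wd, ∃ w' : Wd, (∀ m, g (Sum.inr (w, m)) = Sum.inr (w', m)) ∧
      w'.l = w.l.map π := by
  obtain ⟨γ, hγ⟩ := exists_gamma (g := g)
  choose π N hπ using exists_lim h hγ
  refine ⟨π, fun w => ?_⟩
  obtain ⟨w', hw⟩ := gaut_time h w
  refine ⟨w', hw, ?_⟩
  have hm := gaut_map h hw hγ
  obtain ⟨n, hn⟩ := w.2.2.2
  obtain ⟨n', hn'⟩ := w'.2.2.2
  have h1 : w'.a (max (max n n') (w.l.map N).sum) = w'.l :=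
    hn' _ ((le_max_right _ _).trans (le_max_left _ _))
  have h2 : w.a (max (max n n') (w.l.map N).sum) = w.l :=
    hn _ ((le_max_left _ _).trans (le_max_left _ _))
  rw [← h1, hm, h2]
  refine List.map_congr_left fun i hi => hπ i _ ?_
  exact (List.le_sum_of_mem (List.mem_map_of_mem hi)).trans (le_max_right _ _)

/-- **the permutation of an automorphism** -/
theorem exists_pi {g : Equiv.Perm V} (h : GAut g) :
    ∃ π : Equiv.Perm ℕ, ∀ w : Wd, ∃ w' : Wd, (∀ m, g (Sum.inr (w, m)) = Sum.inr (w', m)) ∧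
      w'.l = w.l.map π := by
  obtain ⟨π, hπ⟩ := exists_pi_fun h
  obtain ⟨ρ, hρ⟩ := exists_pi_fun h.symm
  have key : ∀ i, ρ (π i) = i := by
    intro i
    obtain ⟨w', h1, h2⟩ := hπ (cst [i])
    obtain ⟨w'', h3, h4⟩ := hρ w'
    have e : w'' = cst [i] := by
      have h5 := h3 0
      rw [← h1 0, Equiv.symm_apply_apply] at h5
      have h6 := Sum.inr.inj h5
      exact (congrArg Prod.fst h6).symm
    rw [e, cst_l, h2, cst_l] at h4
    simpa using h4.symm
  have key' : ∀ i, π (ρ i) = i := by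
    intro i
    obtain ⟨w', h1, h2⟩ := hρ (cst [i])
    obtain ⟨w'', h3, h4⟩ := hπ w'
    have e : w'' = cst [i] := by
      have h5 := h3 0
      rw [← h1 0, Equiv.apply_symm_apply] at h5
      have h6 := Sum.inr.inj h5
      exact (congrArg Prod.fst h6).symm
    rw [e, cst_l, h2, cst_l] at h4
    simpa using h4.symm
  exact ⟨⟨π, ρ, key, key'⟩, hπ⟩

end Pool.Agent.H71.ND
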