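import Pool.Agent.H71.ND.GAuto
import Pool.Agent.H71.ND.Lift

/-!
# Colourings of one nowhere dense graph code all structures
-/

set_option autoImplicit false

open Set

namespace Pool.Agent.H71.ND

/-- the colouring given by a structure -/
def chi {C : Type} (x : List ℕ → C) : V → C
  | Sum.inl _ => x []
  | Sum.inr (w, _) => x w.l

lemma chi_aut {a : Equiv.Perm V} (h : GAut a) : ∃ π : Equiv.Perm ℕ, ∀ {C : Type}
    (x : List ℕ → C) (v : V), chi x (a v) = chi (fun l => x (l.map π)) v := by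
  obtain ⟨π, hπ⟩ := exists_pi h
  refine ⟨π, fun x v => ?_⟩
  match v with
  | Sum.inl p =>
    obtain ⟨q, hq⟩ := gaut_hub h p
    rw [hq]
    rfl
  | Sum.inr (w, m) =>
    obtain ⟨w', hw, hl⟩ := hπ w
    rw [hw m]
    change x w'.l = x (w.l.map π)
    rw [hl]

lemma chi_lift (σ : Equiv.Perm ℕ) : ∃ a : Equiv.Perm V, GAut a ∧ ∀ {C : Type}
    (x : List ℕ → C) (v : V), chi x (a v) = chi (fun l => x (l.map σ)) v := by
  obtain ⟨a, h, h1, h2⟩ := exists_lift σ
  refine ⟨a, gAut_of_isAut h, fun x v => ?_⟩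
  match v with
  | Sum.inl p =>
    obtain ⟨q, hq⟩ := h1 p
    rw [hq]
    rfl
  | Sum.inr (w, m) =>
    obtain ⟨w', hw, hl⟩ := h2 w m
    rw [hw]
    change x w'.l = x (w.l.map σ)
    rw [hl]

/-- the graph on the natural numbers -/
def graph (e : ℕ ≃ V) : SimpleGraph ℕ where
  Adj u v := Adj (e u) (e v)
  symm := ⟨fun _ _ h => h.symm⟩
  loopless := ⟨fun u h => by
    rcases hu : e u with p | ⟨w, t⟩
    · rw [hu] at h
      exact not_adj_hub_hub h
    · rw [hu] at h
      obtain ⟨-, h1 | h1⟩ := adj_ray_ray h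
      · omega
      · omega⟩

/-- **Theorem.** There is a nowhere dense graph `G` such that the countable-or-perfect dichotomy
for the colourings of `G`, up to automorphisms of `G`, implies Vaught's conjecture. -/
theorem exists_graph : ∃ G : SimpleGraph ℕ,
    (∀ n : ℕ, ∃ k : ℕ, ∀ (b : Fin k → ℕ) (P : ∀ i j, G.Walk (b i) (b j)), Function.Injective b →
      (∀ i j, i < j → (P i j).IsPath ∧ (P i j).length ≤ n ∧
        ∀ k, b k ∈ (P i j).support → k = i ∨ k = j) →
      ¬ (∀ i j k l, i < j → k < l → (i, j) ≠ (k, l) →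
        ∀ v ∈ (P i j).support, v ∈ (P k l).support → v ∈ range b)) ∧
    ∀ {C : Type} [MeasurableSpace C] [StandardBorelSpace C],
      (∀ A : Set (ℕ → C), MeasurableSet A →
        (∀ c ∈ A, ∀ (c' : ℕ → C) (g : Equiv.Perm ℕ), (∀ u v, G.Adj (g u) (g v) ↔ G.Adj u v) →
          (∀ i, c' (g i) = c i) → c' ∈ A) →
        (∃ D : Set (ℕ → C), D.Countable ∧ ∀ c ∈ A, ∃ c' ∈ D, ∃ g : Equiv.Perm ℕ,
          (∀ u v, G.Adj (g u) (g v) ↔ G.Adj u v) ∧ ∀ i, c' (g i) = c i) ∨
        ∃ F : (ℕ → Bool) → ℕ → C, Measurable F ∧ (∀ u, F u ∈ A) ∧ ∀ u v, u ≠ v →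
          ¬ ∃ g : Equiv.Perm ℕ, (∀ u v, G.Adj (g u) (g v) ↔ G.Adj u v) ∧
            ∀ i, F v (g i) = F u i) →
      ∀ X : Set (List ℕ → C), MeasurableSet X →
        (∀ x ∈ X, ∀ (y : List ℕ → C) (g : Equiv.Perm ℕ), (∀ l, y (l.map g) = x l) → y ∈ X) →
        (∃ D : Set (List ℕ → C), D.Countable ∧ ∀ x ∈ X, ∃ y ∈ D, ∃ g : Equiv.Perm ℕ,
          ∀ l, y (l.map g) = x l) ∨
        ∃ F : (ℕ → Bool) → List ℕ → C, Measurable F ∧ (∀ u, F u ∈ X) ∧ ∀ u v, u ≠ v →
          ¬ ∃ g : Equiv.Perm ℕ, ∀ l, F v (l.map g) = F u l := by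
  classical
  obtain ⟨e⟩ : Nonempty (ℕ ≃ V) := nonempty_equiv_of_countable
  refine ⟨graph e, ?_, ?_⟩
  · intro n
    refine ⟨(n + 1) * (n + 1) + 6, fun b P hb h1 h2 => ?_⟩
    exact nowhere_dense (e := e) e.injective (fun u v huv => huv) n _ rfl b P hb h1 h2
  · intro C _ _ hdich X hX hinv
    have haut : ∀ g : Equiv.Perm ℕ, (∀ u v, (graph e).Adj (g u) (g v) ↔ (graph e).Adj u v) →
        GAut ((e.symm.trans g).trans e) := by
      intro g hg a b
      have h1 := hg (e.symm a) (e.symm b)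
      change Adj (e (g (e.symm a))) (e (g (e.symm b))) ↔ Adj (e (e.symm a)) (e (e.symm b)) at h1
      rw [Equiv.apply_symm_apply, Equiv.apply_symm_apply] at h1
      exact h1
    have haut' : ∀ a : Equiv.Perm V, GAut a → ∀ u v,
        (graph e).Adj (((e.trans a).trans e.symm) u) (((e.trans a).trans e.symm) v) ↔
          (graph e).Adj u v := by
      intro a ha u v
      change Adj (e (e.symm (a (e u)))) (e (e.symm (a (e v)))) ↔ Adj (e u) (e v)
      rw [Equiv.apply_symm_apply, Equiv.apply_symm_apply]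
      exact ha _ _
    set K : (List ℕ → C) → ℕ → C := fun x i => chi x (e i) with hK
    set R : (ℕ → C) → List ℕ → C := fun c l => c (e.symm (Sum.inr (cst l, 0))) with hR
    have hRK : ∀ x, R (K x) = x := by
      intro x
      funext l
      change chi x (e (e.symm (Sum.inr (cst l, 0)))) = x l
      rw [Equiv.apply_symm_apply]
      rfl
    have hKm : Measurable K := by
      refine measurable_pi_lambda _ fun i => ?_
      change Measurable fun x : List ℕ → C => chi x (e i)
      rcases e i with p | ⟨w, m⟩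
      · exact measurable_pi_apply _
      · exact measurable_pi_apply _
    have hRm : Measurable R := measurable_pi_lambda _ fun l => measurable_pi_apply _
    have hKi : Function.Injective K := fun x y h => by rw [← hRK x, h, hRK]
    have hA : MeasurableSet (K '' X) := hX.image_of_measurable_injOn hKm hKi.injOn
    have hmove : ∀ (x : List ℕ → C) (c' : ℕ → C) (g : Equiv.Perm ℕ),
        (∀ u v, (graph e).Adj (g u) (g v) ↔ (graph e).Adj u v) → (∀ i, c' (g i) = K x i) →
        ∃ π : Equiv.Perm ℕ, c' = K (fun l => x (l.map π)) := by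
      intro x c' g hg hc
      obtain ⟨π, hπ⟩ := chi_aut (haut g hg).symm
      refine ⟨π, funext fun i => ?_⟩
      have h1 := hc (g.symm i)
      rw [Equiv.apply_symm_apply] at h1
      have h2 := hπ x (e i)
      have h3 : ((e.symm.trans g).trans e).symm (e i) = e (g.symm i) := by simp
      rw [h3] at h2
      rw [h1]
      exact h2
    have hmem : ∀ x ∈ X, ∀ π : Equiv.Perm ℕ, (fun l : List ℕ => x (l.map π)) ∈ X := by
      intro x hx π
      refine hinv x hx _ π.symm fun l => ?_
      change x ((l.map π.symm).map π) = x l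
      rw [List.map_map]
      simp
    rcases hdich (K '' X) hA (by
        rintro _ ⟨x, hx, rfl⟩ c' g hg hc
        obtain ⟨π, rfl⟩ := hmove x c' g hg hc
        exact ⟨_, hmem x hx π, rfl⟩) with ⟨D, hD, hD'⟩ | ⟨F, hF, hFA, hFn⟩
    · left
      refine ⟨R '' D, hD.image _, fun x hx => ?_⟩
      obtain ⟨c', hc', g, hg, hgc⟩ := hD' _ ⟨x, hx, rfl⟩
      obtain ⟨π, hπ⟩ := hmove x c' g hg hgc
      refine ⟨_, ⟨c', hc', rfl⟩, π.symm, fun l => ?_⟩
      rw [hπ, hRK]
      change x ((l.map π.symm).map π) = x l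
      rw [List.map_map]
      simp
    · right
      refine ⟨fun u => R (F u), hRm.comp hF, fun u => ?_, fun u v huv => ?_⟩
      · obtain ⟨x, hx, hxF⟩ := hFA u
        change R (F u) ∈ X
        rw [← hxF, hRK]
        exact hx
      · rintro ⟨σ, hσ⟩
        apply hFn u v huv
        obtain ⟨a, ha, hac⟩ := chi_lift σ
        refine ⟨(e.trans a).trans e.symm, haut' a ha, fun i => ?_⟩
        obtain ⟨x, hx, hxF⟩ := hFA u
        obtain ⟨y, hy, hyF⟩ := hFA v
        have h1 := hac y (e i)
        have h2 : (fun l : List ℕ => y (l.map σ)) = x := by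
          funext l
          have h3 := hσ l
          simp only at h3
          rw [← hxF, ← hyF, hRK, hRK] at h3
          exact h3
        rw [← hyF, ← hxF]
        change chi y (e (((e.trans a).trans e.symm) i)) = chi x (e i)
        have h4 : e (((e.trans a).trans e.symm) i) = a (e i) := by simp
        rw [h4, h1, h2]

end Pool.Agent.H71.ND
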