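import Pool.Agent.H71.ND.Defs

/-!
# The structure is nowhere dense
-/

set_option autoImplicit false

open Set

namespace Pool.Agent.H71.ND

/-- adjacency in the structure -/
def Adj (a b : V) : Prop := col2 a b ≠ 0 ∨ col2 b a ≠ 0

lemma Adj.symm {a b : V} (h : Adj a b) : Adj b a := Or.symm h

/-- `(w, t)` is joined to the hub `(m, i)` -/
def Touch (w : Wd) (t m i : ℕ) : Prop := ∃ p, t = 2 ^ Nat.pair m p ∧ (w.a m)[p]? = some i

lemma adj_ray_hub {w : Wd} {t m i : ℕ} :
    Adj (Sum.inr (w, t)) (Sum.inl (m, i)) ↔ Touch w t m i := by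
  constructor
  · rintro (h | h)
    · simp only [col2] at h
      split_ifs at h with h1
      · exact h1
      · exact absurd rfl h
    · exact absurd rfl h
  · intro h
    left
    have : col2 (Sum.inr (w, t)) (Sum.inl (m, i)) = kd (3, 0, []) := if_pos h
    rw [this]
    exact kd_ne _

lemma adj_ray_ray {w w' : Wd} {t t' : ℕ} (h : Adj (Sum.inr (w, t)) (Sum.inr (w', t'))) :
    w' = w ∧ (t' = t + 1 ∨ t = t' + 1) := by
  rcases h with h | h
  · simp only [col2] at h
    split_ifs at h with h1
    · exact ⟨h1.1, Or.inl h1.2⟩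
    · exact absurd rfl h
  · simp only [col2] at h
    split_ifs at h with h1
    · exact ⟨h1.1.symm, Or.inr h1.2⟩
    · exact absurd rfl h

lemma not_adj_hub_hub {p q : ℕ × ℕ} : ¬ Adj (Sum.inl p) (Sum.inl q) := by
  rintro (h | h)
  · exact h rfl
  · exact h rfl

lemma touch_unique {w : Wd} {t m i m' i' : ℕ} (h : Touch w t m i) (h' : Touch w t m' i') :
    m = m' ∧ i = i' := by
  obtain ⟨p, h1, h2⟩ := h
  obtain ⟨p', h1', h2'⟩ := h'
  have e3 : Nat.pair m p = Nat.pair m' p' :=
    Nat.pow_right_injective (le_refl 2) (h1.symm.trans h1')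
  have e4 := congrArg Nat.unpair e3
  rw [Nat.unpair_pair, Nat.unpair_pair] at e4
  obtain ⟨rfl, rfl⟩ := Prod.ext_iff.1 e4
  exact ⟨rfl, Option.some.inj (h2.symm.trans h2')⟩

lemma nbr_hub {m i : ℕ} {b : V} (h : Adj (Sum.inl (m, i)) b) :
    ∃ w t, b = Sum.inr (w, t) ∧ Touch w t m i := by
  match b with
  | Sum.inl _ => exact absurd h not_adj_hub_hub
  | Sum.inr (w, t) => exact ⟨w, t, rfl, adj_ray_hub.1 h.symm⟩

lemma touch_le {w : Wd} {t m i : ℕ} (h : Touch w t m i) : i ≤ m := by
  obtain ⟨p, -, h2⟩ := h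
  exact w.2.2.1 m i (List.mem_of_getElem? h2)

/-- a point of a ray has at most three neighbours -/
lemma nbr_ray (w : Wd) (t : ℕ) : ∃ c : V, ∀ b, Adj (Sum.inr (w, t)) b →
    b = Sum.inr (w, t + 1) ∨ b = Sum.inr (w, t - 1) ∨ b = c := by
  classical
  by_cases hx : ∃ m i, Touch w t m i
  · obtain ⟨m, i, hmi⟩ := hx
    refine ⟨Sum.inl (m, i), fun b hb => ?_⟩
    match b with
    | Sum.inl (m', i') =>
      obtain ⟨rfl, rfl⟩ := touch_unique hmi (adj_ray_hub.1 hb)
      exact Or.inr (Or.inr rfl)
    | Sum.inr (w', t') =>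
      obtain ⟨rfl, rfl | rfl⟩ := adj_ray_ray hb
      · exact Or.inl rfl
      · exact Or.inr (Or.inl (by simp))
  · refine ⟨Sum.inr (w, t), fun b hb => ?_⟩
    match b with
    | Sum.inl (m', i') => exact absurd ⟨m', i', adj_ray_hub.1 hb⟩ hx
    | Sum.inr (w', t') =>
      obtain ⟨rfl, rfl | rfl⟩ := adj_ray_ray hb
      · exact Or.inl rfl
      · exact Or.inr (Or.inl (by simp))

open Classical in
/-- distance along the ray from the time `2 ^ s` -/
noncomputable def psi (w : Wd) (s : ℕ) : V → ℕ
  | Sum.inl _ => 2 ^ (s - 1)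
  | Sum.inr (w', t) => if w' = w then min ((t - 2 ^ s) + (2 ^ s - t)) (2 ^ (s - 1)) else 2 ^ (s - 1)

lemma pow_far {s s' : ℕ} (h : s' ≠ s) (hs : s ≠ 0) :
    2 ^ (s - 1) ≤ (2 ^ s' - 2 ^ s) + (2 ^ s - 2 ^ s') := by
  obtain ⟨s, rfl⟩ := Nat.exists_eq_succ_of_ne_zero hs
  rw [Nat.succ_sub_one]
  have e : 2 ^ (s + 1) = 2 ^ s + 2 ^ s := by ring
  rcases Nat.lt_or_gt_of_ne h with h | h
  · have h1 : 2 ^ s' ≤ 2 ^ s := Nat.pow_le_pow_right (by norm_num) (by omega)
    simp only [Nat.succ_eq_add_one]
    omega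
  · have h1 : 2 ^ (s + 2) ≤ 2 ^ s' := Nat.pow_le_pow_right (by norm_num) (by omega)
    have e' : 2 ^ (s + 2) = 2 ^ s + 2 ^ s + 2 ^ s + 2 ^ s := by ring
    simp only [Nat.succ_eq_add_one]
    omega

lemma psi_adj {w : Wd} {s m p i : ℕ} (hs : s ≠ 0) (hsm : s = Nat.pair m p)
    (hi : (w.a m)[p]? = some i) {a b : V} (hab : Adj a b) (ha : a ≠ Sum.inl (m, i))
    (hb : b ≠ Sum.inl (m, i)) : psi w s b ≤ psi w s a + 1 := by
  have key : ∀ (w' : Wd) (t m' i' : ℕ), Touch w' t m' i' →
      (Sum.inl (m', i') : V) ≠ Sum.inl (m, i) → psi w s (Sum.inr (w', t)) = 2 ^ (s - 1) := by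
    intro w' t m' i' ht hne
    simp only [psi]
    split_ifs with hw
    · subst hw
      obtain ⟨p', h1, h2⟩ := ht
      have hss : Nat.pair m' p' ≠ s := by
        intro he
        rw [hsm] at he
        have e4 := congrArg Nat.unpair he
        rw [Nat.unpair_pair, Nat.unpair_pair] at e4
        obtain ⟨e5, e6⟩ := Prod.ext_iff.1 e4
        simp only at e5 e6
        subst e5 e6
        rw [hi] at h2
        exact hne (by rw [Option.some.inj h2])
      rw [h1]
      exact min_eq_right (pow_far hss hs)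
    · rfl
  match a, b with
  | Sum.inl p, Sum.inl q => exact absurd hab not_adj_hub_hub
  | Sum.inl (m', i'), Sum.inr (w', t) =>
    rw [key w' t m' i' (adj_ray_hub.1 hab.symm) ha]
    simp [psi]
  | Sum.inr (w', t), Sum.inl (m', i') =>
    rw [key w' t m' i' (adj_ray_hub.1 hab) hb]
    simp [psi]
  | Sum.inr (w', t), Sum.inr (w'', t') =>
    obtain ⟨rfl, ht⟩ := adj_ray_ray hab
    simp only [psi]
    split_ifs with hw
    · omega
    · omega

/-- **a short path from a hub to a hub starts at a hub of small level** -/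
lemma short_hub {G : SimpleGraph ℕ} {e : ℕ → V} (he : Function.Injective e)
    (hG : ∀ u v, G.Adj u v → Adj (e u) (e v)) {u v : ℕ} (P : G.Walk u v) (hP : P.IsPath)
    {m i m' i' n : ℕ} (hu : e u = Sum.inl (m, i)) (hv : e v = Sum.inl (m', i')) (huv : u ≠ v)
    (hn : P.length ≤ n) : m ≤ n := by
  cases P with
  | nil => exact absurd rfl huv
  | @cons _ x _ hadj q =>
    have h1 := hG _ _ hadj
    rw [hu] at h1
    obtain ⟨w, t, hx, p, ht, hi⟩ := nbr_hub h1
    by_cases hs : Nat.pair m p = 0
    · have := Nat.left_le_pair m p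
      omega
    · rw [SimpleGraph.Walk.cons_isPath_iff] at hP
      have hw : ∀ {y z : ℕ} (r : G.Walk y z), u ∉ r.support →
          psi w (Nat.pair m p) (e z) ≤ psi w (Nat.pair m p) (e y) + r.length := by
        intro y z r hr
        induction r with
        | nil => simp
        | @cons a b c hab r ih =>
          rw [SimpleGraph.Walk.support_cons, List.mem_cons, not_or] at hr
          have h2 := ih hr.2
          have h3 : psi w (Nat.pair m p) (e b) ≤ psi w (Nat.pair m p) (e a) + 1 := by
            refine psi_adj hs rfl hi (hG _ _ hab) ?_ ?_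
            · rw [← hu]
              exact fun h => hr.1 (he h).symm
            · rw [← hu]
              exact fun h => hr.2 (by rw [← he h]; exact r.start_mem_support)
          rw [SimpleGraph.Walk.length_cons]
          omega
      have h4 := hw q hP.2
      rw [hv, hx, ht] at h4
      simp only [psi, if_true] at h4
      rw [SimpleGraph.Walk.length_cons] at hn
      have h5 : Nat.pair m p - 1 < 2 ^ (Nat.pair m p - 1) := Nat.lt_two_pow_self
      have h6 := Nat.left_le_pair m p
      simp at h4
      omega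

/-- **the structure is nowhere dense** -/
theorem nowhere_dense {G : SimpleGraph ℕ} {e : ℕ → V} (he : Function.Injective e)
    (hG : ∀ u v, G.Adj u v → Adj (e u) (e v)) (n N : ℕ) (hN : N = (n + 1) * (n + 1))
    (b : Fin (N + 6) → ℕ) (P : ∀ i j, G.Walk (b i) (b j))
    (hb : Function.Injective b)
    (h1 : ∀ i j, i < j → (P i j).IsPath ∧ (P i j).length ≤ n ∧
      ∀ k, b k ∈ (P i j).support → k = i ∨ k = j)
    (h2 : ∀ i j k l, i < j → k < l → (i, j) ≠ (k, l) →
      ∀ v ∈ (P i j).support, v ∈ (P k l).support → v ∈ range b) : False := by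
  classical
  have hadj : ∀ i j, i < j → G.Adj (b i) ((P i j).getVert 1) := by
    intro i j hij
    have hnil : (P i j).length ≠ 0 := by
      intro h0
      have := hb (SimpleGraph.Walk.eq_of_length_eq_zero h0)
      exact absurd this hij.ne
    have := (P i j).adj_getVert_succ (i := 0) (Nat.pos_of_ne_zero hnil)
    rwa [SimpleGraph.Walk.getVert_zero] at this
  have hinj : ∀ i j j', i < j → i < j' → j ≠ j' → (P i j).getVert 1 ≠ (P i j').getVert 1 := by
    intro i j j' hij hij' hne heq
    have hs : (P i j).getVert 1 ∈ (P i j).support := SimpleGraph.Walk.getVert_mem_support _ _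
    have hs' : (P i j).getVert 1 ∈ (P i j').support := by
      rw [heq]
      exact SimpleGraph.Walk.getVert_mem_support _ _
    obtain ⟨k, hk⟩ := h2 i j i j' hij hij' (fun h => hne (Prod.ext_iff.1 h).2) _ hs hs'
    have e1 := (h1 i j hij).2.2 k (by rw [hk]; exact hs)
    have e2 := (h1 i j' hij').2.2 k (by rw [hk]; exact hs')
    have e3 : k = i := by
      rcases e1 with e1 | e1
      · exact e1
      · rcases e2 with e2 | e2
        · exact e2
        · exact absurd (e1.symm.trans e2) hne
    subst e3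
    have := hadj k j hij
    rw [← hk] at this
    exact G.loopless.irrefl _ this
  -- the first vertices are hubs
  have hhub : ∀ i : Fin (N + 6), i.1 < N + 2 → ∃ p, e (b i) = Sum.inl p := by
    intro i hi
    rcases hei : e (b i) with p | ⟨w, t⟩
    · exact ⟨p, rfl⟩
    · exfalso
      obtain ⟨c, hc⟩ := nbr_ray w t
      let j : Fin 4 → Fin (N + 6) := fun r => ⟨i.1 + 1 + r.1, by omega⟩
      have hij : ∀ r, i < j r := fun r => by
        rw [Fin.lt_def]
        simp only [j]
        omega
      let y : Fin 4 → V := fun r => e ((P i (j r)).getVert 1)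
      have hy : Function.Injective y := by
        intro r r' h
        by_contra hne
        refine hinj i (j r) (j r') (hij r) (hij r') (fun hjj => hne ?_) (he h)
        have := congrArg Fin.val hjj
        simp only [j] at this
        exact Fin.ext (by omega)
      have hsub : Finset.univ.image y ⊆ ({Sum.inr (w, t + 1), Sum.inr (w, t - 1), c} : Finset V) := by
        intro v hv
        obtain ⟨r, -, rfl⟩ := Finset.mem_image.1 hv
        have h3 := hG _ _ (hadj i (j r) (hij r))
        rw [hei] at h3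
        simp only [Finset.mem_insert, Finset.mem_singleton]
        exact hc _ h3
      have h4 := Finset.card_le_card hsub
      rw [Finset.card_image_of_injective _ hy, Finset.card_univ, Fintype.card_fin] at h4
      have h5 : ({Sum.inr (w, t + 1), Sum.inr (w, t - 1), c} : Finset V).card ≤ 3 :=
        Finset.card_le_three
      omega
  -- they have small levels
  have hlev : ∀ i : Fin (N + 6), i.1 < N + 1 →
      e (b i) ∈ ((Finset.range (n + 1) ×ˢ Finset.range (n + 1)).image
        (fun p => (Sum.inl p : V))) := by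
    intro i hi
    obtain ⟨⟨m, k⟩, hp⟩ := hhub i (by omega)
    obtain ⟨⟨m', k'⟩, hp'⟩ := hhub ⟨i.1 + 1, by omega⟩ (by simp only; omega)
    have hij : i < (⟨i.1 + 1, by omega⟩ : Fin (N + 6)) := by
      rw [Fin.lt_def]
      simp
    have h3 : m ≤ n := short_hub he hG (P i ⟨i.1 + 1, by omega⟩) (h1 _ _ hij).1 hp hp'
      (fun h => absurd (hb h) hij.ne) (h1 _ _ hij).2.1
    have h4 := hG _ _ (hadj i _ hij)
    rw [hp] at h4
    obtain ⟨w, t, -, ht⟩ := nbr_hub h4
    have h5 := touch_le ht
    refine Finset.mem_image.2 ⟨(m, k), ?_, hp.symm⟩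
    rw [Finset.mem_product, Finset.mem_range, Finset.mem_range]
    constructor
    · simp only
      omega
    · simp only
      omega
  have hfin : (Finset.univ.image (fun i : Fin (N + 1) => e (b ⟨i.1, by omega⟩))) ⊆
      ((Finset.range (n + 1) ×ˢ Finset.range (n + 1)).image (fun p => (Sum.inl p : V))) := by
    intro v hv
    obtain ⟨i, -, rfl⟩ := Finset.mem_image.1 hv
    exact hlev ⟨i.1, by omega⟩ i.2
  have h6 := Finset.card_le_card hfin
  rw [Finset.card_image_of_injective _ (fun i i' h => by
    have h7 := hb (he h)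
    rw [Fin.mk.injEq] at h7
    exact Fin.ext h7), Finset.card_univ, Fintype.card_fin,
    Finset.card_image_of_injective _ Sum.inl_injective, Finset.card_product,
    Finset.card_range] at h6
  omega

end Pool.Agent.H71.ND
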